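import Pool.Agent.Lib.MP_6bc78b_nt.GP.H62.Defs7

/-! Project GP7 (MP_6bc78b_nt): row BASX. -/

set_option autoImplicit false

open Complex Filter Topology MeasureTheory ArithmeticFunction Set
open scoped ENNReal

namespace Pool.Agent.Lib.MP_6bc78b_nt.GP.G7

open Pool.Agent.Lib.MP_6bc78b_nt.MS Pool.Agent.Lib.MP_6bc78b_nt.MS.P1

namespace Bas23

theorem hat_nonneg (θ : ℝ) (j : ℕ) (v : ℝ) : 0 ≤ hatw θ j v := le_max_left _ _

/-- The left half of the hat, continued by `1`. -/
noncomputable def cl (θ : ℝ) (j : ℕ) (v : ℝ) : ℝ :=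
  max 0 (min 1 ((v - Real.exp (θ * (j - 1))) / (Real.exp (θ * j) - Real.exp (θ * (j - 1)))))

theorem hat_eq {θ : ℝ} (hθ : 0 < θ) (j : ℕ) (v : ℝ) :
    hatw θ j v = cl θ j v - cl θ (j + 1) v := by
  have h1 : Real.exp (θ * (j - 1)) < Real.exp (θ * j) :=
    Real.exp_lt_exp.2 (by nlinarith)
  have h2 : Real.exp (θ * j) < Real.exp (θ * (j + 1)) :=
    Real.exp_lt_exp.2 (by nlinarith)
  have e1 : ((j + 1 : ℕ) : ℝ) - 1 = j := by push_cast; ring
  have e2 : ((j + 1 : ℕ) : ℝ) = j + 1 := by push_cast; ring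
  unfold hatw cl
  rw [e1, e2]
  generalize Real.exp (θ * (j - 1)) = x at *
  generalize Real.exp (θ * j) = y at *
  generalize Real.exp (θ * (j + 1)) = z at *
  have hyx : 0 < y - x := by linarith
  have hzy : 0 < z - y := by linarith
  rcases le_total v y with h | h
  · have a1 : (v - x) / (y - x) ≤ 1 := by rw [div_le_one hyx]; linarith
    have a2 : (v - y) / (z - y) ≤ 0 := div_nonpos_of_nonpos_of_nonneg (by linarith) hzy.le
    have a3 : 1 ≤ (z - v) / (z - y) := by rw [one_le_div hzy]; linarith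
    rw [min_eq_left (a1.trans a3), min_eq_right a1, min_eq_right (a2.trans zero_le_one),
      max_eq_left a2, sub_zero]
  · have a1 : 1 ≤ (v - x) / (y - x) := by rw [one_le_div hyx]; linarith
    have a2 : 0 ≤ (v - y) / (z - y) := div_nonneg (by linarith) hzy.le
    have a3 : (z - v) / (z - y) = 1 - (v - y) / (z - y) := by
      rw [eq_sub_iff_add_eq, ← add_div, div_eq_one_iff_eq hzy.ne']
      ring
    rw [min_eq_right ((by rw [a3]; linarith : (z - v) / (z - y) ≤ 1).trans a1), min_eq_left a1,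
      max_eq_right zero_le_one, a3]
    rcases le_total 1 ((v - y) / (z - y)) with h3 | h3
    · rw [max_eq_left (by linarith), min_eq_left h3, max_eq_right zero_le_one, sub_self]
    · rw [max_eq_right (by linarith), min_eq_right h3, max_eq_right a2]

theorem cl_nonneg (θ : ℝ) (j : ℕ) (v : ℝ) : 0 ≤ cl θ j v := le_max_left _ _

theorem cl_le (θ : ℝ) (j : ℕ) (v : ℝ) : cl θ j v ≤ 1 := max_le zero_le_one (min_le_left _ _)

theorem sum_hat {θ : ℝ} (hθ : 0 < θ) (a b : ℕ) (v : ℝ) :
    ∑ j ∈ Finset.Ico a b, hatw θ j v ≤ 1 := by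
  rcases le_total a b with h | h
  · have h1 : ∑ j ∈ Finset.Ico a b, hatw θ j v = cl θ a v - cl θ b v := by
      induction b, h using Nat.le_induction with
      | base => rw [Finset.Ico_self, Finset.sum_empty, sub_self]
      | succ b hb ih =>
        rw [Finset.sum_Ico_succ_top hb, ih, hat_eq hθ]
        ring
    rw [h1]
    linarith [cl_nonneg θ b v, cl_le θ a v]
  · rw [Finset.Ico_eq_empty_of_le h, Finset.sum_empty]
    exact zero_le_one

theorem hat_zero {θ : ℝ} (hθ : 0 < θ) {j : ℕ} {v : ℝ} (h : v ≤ Real.exp (θ * (j - 1))) :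
    hatw θ j v = 0 := by
  have h1 : Real.exp (θ * (j - 1)) < Real.exp (θ * j) := Real.exp_lt_exp.2 (by nlinarith)
  unfold hatw
  refine max_eq_left ((min_le_left _ _).trans ?_)
  exact div_nonpos_of_nonpos_of_nonneg (by linarith) (by linarith)

theorem bet_nonneg (n : ℕ) : 0 ≤ bet n :=
  Finset.sum_nonneg fun d _ => mul_nonneg vonMangoldt_nonneg (Real.log_natCast_nonneg d)

theorem bet_le (n : ℕ) : bet n ≤ Real.log n ^ 2 := by
  have h1 : ∑ d ∈ n.divisors, vonMangoldt d = Real.log n := vonMangoldt_sum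
  unfold bet
  calc ∑ d ∈ n.divisors, vonMangoldt d * Real.log d
      ≤ ∑ d ∈ n.divisors, vonMangoldt d * Real.log n := by
        refine Finset.sum_le_sum fun d hd => mul_le_mul_of_nonneg_left ?_ vonMangoldt_nonneg
        have h2 := Nat.mem_divisors.1 hd
        refine Real.log_le_log ?_ ?_
        · exact_mod_cast Nat.pos_of_dvd_of_pos h2.1 (Nat.pos_of_ne_zero h2.2)
        · exact_mod_cast Nat.le_of_dvd (Nat.pos_of_ne_zero h2.2) h2.1
    _ = Real.log n ^ 2 := by rw [← Finset.sum_mul, h1]; ring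

theorem cn_eq (n : ℕ) (hn : n ≠ 0) : cn n = Real.log n ^ 2 - bet n := by
  have h1 : ∑ d ∈ n.divisors, vonMangoldt d = Real.log n := vonMangoldt_sum
  have h2 : cn n = ∑ d ∈ n.divisors, vonMangoldt d * Real.log ((n / d : ℕ) : ℝ) := by
    unfold cn
    rw [ArithmeticFunction.mul_apply, Nat.sum_divisorsAntidiagonal (fun a b => La a * lg b)]
    rfl
  rw [h2, bet, eq_sub_iff_add_eq, ← Finset.sum_add_distrib]
  calc ∑ d ∈ n.divisors, (vonMangoldt d * Real.log ((n / d : ℕ) : ℝ) +
        vonMangoldt d * Real.log d) = ∑ d ∈ n.divisors, vonMangoldt d * Real.log n := by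
        refine Finset.sum_congr rfl fun d hd => ?_
        have h3 := Nat.mem_divisors.1 hd
        have h4 : 0 < d := Nat.pos_of_dvd_of_pos h3.1 (Nat.pos_of_ne_zero hn)
        have h5 : (0 : ℝ) < d := by exact_mod_cast h4
        have h6 : (0 : ℝ) < n := by exact_mod_cast Nat.pos_of_ne_zero hn
        rw [Nat.cast_div h3.1 h5.ne', Real.log_div h6.ne' h5.ne']
        ring
    _ = Real.log n ^ 2 := by rw [← Finset.sum_mul, h1]; ring

theorem sum_prime_le (n : ℕ) : ∑ p ∈ n.primeFactors, Real.log p ^ 2 ≤ bet n := by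
  rcases eq_or_ne n 0 with rfl | hn
  · rw [Nat.primeFactors_zero, Finset.sum_empty]
    exact bet_nonneg 0
  · unfold bet
    calc ∑ p ∈ n.primeFactors, Real.log p ^ 2
        = ∑ p ∈ n.primeFactors, vonMangoldt p * Real.log p := by
          refine Finset.sum_congr rfl fun p hp => ?_
          rw [vonMangoldt_apply_prime (Nat.prime_of_mem_primeFactors hp)]
          ring
      _ ≤ _ := by
          refine Finset.sum_le_sum_of_subset_of_nonneg ?_ fun d _ _ =>
            mul_nonneg vonMangoldt_nonneg (Real.log_natCast_nonneg d)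
          intro p hp
          exact Nat.mem_divisors.2 ⟨Nat.dvd_of_mem_primeFactors hp, hn⟩

theorem ff_nonneg (η T : ℝ) (n : ℕ) : 0 ≤ ff η T n :=
  Finset.sum_nonneg fun _ _ => Finset.sum_nonneg fun _ _ =>
    mul_nonneg (hat_nonneg _ _ _) (sq_nonneg _)

theorem ff_le {η T : ℝ} (hT : 3 ≤ T) (n : ℕ) : ff η T n ≤ bet n := by
  have hL : 0 < Real.log T := Real.log_pos (by linarith)
  refine le_trans ?_ (sum_prime_le n)
  unfold ff fj
  rw [Finset.sum_comm]
  refine Finset.sum_le_sum fun p _ => ?_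
  rw [← Finset.sum_mul]
  have h1 := sum_hat (θ := 1 / Real.log T) (by positivity) ⌈η * Real.log T ^ 2⌉₊
    ⌈2 * Real.log T ^ 2⌉₊ p
  calc (∑ j ∈ js η T, hatw (1 / Real.log T) j p) * Real.log p ^ 2
      ≤ 1 * Real.log p ^ 2 := mul_le_mul_of_nonneg_right h1 (sq_nonneg _)
    _ = _ := one_mul _

theorem ff_mul {η T : ℝ} {q m : ℕ} (hT : 3 ≤ T) (hη : 0 < η) (h2 : 2 ≤ η * Real.log T ^ 2)
    (hq : q.Prime) (hqT : (q : ℝ) ≤ T ^ (η / 2)) : ff η T (q * m) = ff η T m := by
  have hL : 0 < Real.log T := Real.log_pos (by linarith)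
  unfold ff
  refine Finset.sum_congr rfl fun j hj => ?_
  have hj1 : η * Real.log T ^ 2 ≤ j := by
    have h3 := (Finset.mem_Ico.1 hj).1
    exact (Nat.le_ceil _).trans (by exact_mod_cast h3)
  have hz : hatw (1 / Real.log T) j q = 0 := by
    refine hat_zero (by positivity) (hqT.trans ?_)
    rw [Real.rpow_def_of_pos (by linarith)]
    refine Real.exp_le_exp.2 ?_
    rw [one_div, inv_mul_eq_div, le_div_iff₀ hL]
    nlinarith
  unfold fj
  rcases eq_or_ne m 0 with rfl | hm
  · rw [mul_zero]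
  · rw [Nat.primeFactors_mul hq.ne_zero hm, hq.primeFactors, Finset.singleton_union]
    by_cases h : q ∈ m.primeFactors
    · rw [Finset.insert_eq_of_mem h]
    · rw [Finset.sum_insert h, hz, zero_mul, zero_add]

end Bas23

open Bas23 in
/-- Row BASX. -/
theorem basx : BASXStatement := by
  refine ⟨fun A B n => ?_, fun n => ⟨bet_nonneg n, bet_le n⟩,
    fun η T n hT _ => ⟨ff_nonneg η T n, ff_le hT n⟩,
    fun η T q m hT hη h2 hq hqT => ff_mul hT hη h2 hq hqT⟩
  unfold bn smo
  by_cases hn : n = 0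
  · rw [if_pos hn, if_pos hn, hn]
    simp [bet]
  · rw [if_neg hn, if_neg hn, cn_eq n hn]
    ring

end Pool.Agent.Lib.MP_6bc78b_nt.GP.G7
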